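import Pool.Agent.W845.HC.Base

/-! Project HC: the lower side, assembly. -/

set_option autoImplicit false
open scoped Classical
open Filter Topology
open scoped BigOperators

namespace Pool.Agent.W45.HC

open Pool.Agent.W845.PM Pool.Agent.W845.HC

/-- the shift of the last `n - d` vertices -/
def sh (n d : ℕ) (h : d ≤ n) : Fin (n - d) ↪ Fin n :=
  ⟨fun x => ⟨x.val + d, by have := x.2; omega⟩, fun x y hxy => by
    have h1 : x.val + d = y.val + d := congrArg Fin.val hxy
    exact Fin.ext (by omega)⟩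

theorem sh_range {n d : ℕ} (h : d ≤ n) (x : Fin n) : x ∈ Set.range (sh n d h) ↔ d ≤ x.val := by
  constructor
  · rintro ⟨y, rfl⟩
    exact Nat.le_add_left d y.val
  · intro hx
    have := x.2
    exact ⟨⟨x.val - d, by omega⟩, Fin.ext (by show x.val - d + d = x.val; omega)⟩

theorem low : S_LAM → S_MON → S_QTH → S_KBH → S_LOW := by
  intro _ _ hQ hK a b ε δ ha hb hε hε1 hδ
  obtain ⟨N, hN⟩ := hQ a b ε δ ha hb hε hε1 hδ
  refine ⟨max N (max 3 (⌈1 / a⌉₊)), ?_⟩
  intro n d p q hn had hdb hC hq0 hq1 hqp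
  have hnN : N ≤ n := (le_max_left _ _).trans hn
  have hn3 : 3 ≤ n := ((le_max_left _ _).trans (le_max_right _ _)).trans hn
  have hna : (1 : ℝ) / a ≤ n := by
    have h1 : ⌈1 / a⌉₊ ≤ n := ((le_max_right _ _).trans (le_max_right _ _)).trans hn
    exact (Nat.le_ceil _).trans (by exact_mod_cast h1)
  have hn0 : (0 : ℝ) < n := by
    have : 0 < n := by omega
    exact_mod_cast this
  have hna' : 1 ≤ a * n := by
    rw [div_le_iff₀ ha] at hna
    linarith
  have hd1 : 1 ≤ d := by
    have : (1 : ℝ) ≤ d := hna'.trans had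
    exact_mod_cast this
  have h2dR : 2 * (d : ℝ) ≤ n := by nlinarith
  have h2d : 2 * d ≤ n := by exact_mod_cast h2dR
  have hdn : d ≤ n := by omega
  refine ⟨?_, ?_⟩
  · have h1 := kbdT n d (d : ℝ) (by omega) le_rfl hdn (by linarith)
    exact_mod_cast h1
  · have h1 := (hN n d p q hnN had hdb hC hq0 hq1).2 hqp
    rw [← comT (n - d) n (sh n d hdn) q] at h1
    refine le_trans (EG_mono hq0 hq1 ?_) h1
    intro R
    by_cases hH : (KB n d ⊔ R).IsHamiltonian
    · have h2 := hK n d R (sh n d hdn) hn3 hd1 hdn (sh_range hdn) hH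
      rw [if_pos hH, if_pos h2]
    · rw [if_neg hH]
      split_ifs
      · exact zero_le_one
      · exact le_rfl

end Pool.Agent.W45.HC
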